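import Mathlib

/-!
# The polarization inequality on the circle (Hardin, Kendall, Saff)

For `N` points of the circle `ℝ/ℤ` some point of the circle has potential at most the one at the
midpoints between `N` equally spaced points.
-/

set_option autoImplicit false

open Finset
open scoped ENNReal

namespace Pool.Agent.R222.Polar

lemma karamata (N : ℕ) (f c : ℝ → ℝ)
    (hsub : ∀ a ∈ Set.Ioo (0:ℝ) 1, ∀ x ∈ Set.Ioo (0:ℝ) 1, f a + c a * (x - a) ≤ f x)
    (t t' : ℕ → ℝ) (ht : ∀ k < N, t k ∈ Set.Ioo (0:ℝ) 1) (ht' : ∀ k < N, t' k ∈ Set.Ioo (0:ℝ) 1)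
    (hmono : ∀ k, k + 1 < N → t k ≤ t (k + 1))
    (hpart : ∀ m ≤ N, ∑ k ∈ range m, t' k ≤ ∑ k ∈ range m, t k)
    (htot : ∑ k ∈ range N, t' k = ∑ k ∈ range N, t k) :
    ∑ k ∈ range N, f (t k) ≤ ∑ k ∈ range N, f (t' k) := by
  have hc : ∀ a ∈ Set.Ioo (0:ℝ) 1, ∀ b ∈ Set.Ioo (0:ℝ) 1, a ≤ b → c a ≤ c b := by
    intro a ha b hb hab
    rcases hab.eq_or_lt with h | h
    · rw [h]
    · have h1 := hsub a ha b hb
      have h2 := hsub b hb a ha
      by_contra hcon
      push Not at hcon
      have : 0 < (c a - c b) * (b - a) := mul_pos (by linarith) (by linarith)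
      nlinarith
  have key : ∀ m, m + 1 ≤ N → c (t m) * ∑ k ∈ range (m + 1), (t' k - t k) ≤
      ∑ k ∈ range (m + 1), c (t k) * (t' k - t k) := by
    intro m
    induction m with
    | zero => intro _; simp
    | succ m ih =>
      intro hm
      rw [sum_range_succ, sum_range_succ _ (m + 1), mul_add]
      have h1 := ih (by omega)
      have h2 : c (t m) ≤ c (t (m + 1)) := hc _ (ht m (by omega)) _ (ht (m + 1) (by omega))
        (hmono m (by omega))
      have h3 : ∑ k ∈ range (m + 1), (t' k - t k) ≤ 0 := by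
        rw [sum_sub_distrib]
        linarith [hpart (m + 1) (by omega)]
      have := mul_le_mul_of_nonpos_right h2 h3
      linarith
  rcases Nat.eq_zero_or_pos N with h0 | h0
  · subst h0; simp
  · obtain ⟨M, rfl⟩ : ∃ M, N = M + 1 := ⟨N - 1, by omega⟩
    have h1 := key M le_rfl
    rw [sum_sub_distrib, htot, sub_self, mul_zero] at h1
    have h2 : ∑ k ∈ range (M + 1), (f (t k) + c (t k) * (t' k - t k)) ≤
        ∑ k ∈ range (M + 1), f (t' k) :=
      sum_le_sum fun k hk => hsub _ (ht k (mem_range.1 hk)) _ (ht' k (mem_range.1 hk))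
    rw [sum_add_distrib] at h2
    linarith

lemma rpow_tangent {s a x : ℝ} (hs : 0 < s) (ha : 0 < a) (hx : 0 < x) :
    a ^ (-s) + (-s * a ^ (-s - 1)) * (x - a) ≤ x ^ (-s) := by
  have h1 : x ^ (-s) = a ^ (-s) * (x / a) ^ (-s) := by
    rw [← Real.mul_rpow ha.le (div_pos hx ha).le, mul_div_cancel₀ _ ha.ne']
  have h2 : a ^ (-s - 1) = a ^ (-s) / a := by rw [Real.rpow_sub ha, Real.rpow_one]
  have h3 : 1 - s * (x / a - 1) ≤ (x / a) ^ (-s) := by
    have hr : 0 < x / a := div_pos hx ha
    rw [Real.rpow_def_of_pos hr]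
    have h4 := Real.add_one_le_exp (Real.log (x / a) * -s)
    have h5 := Real.log_le_sub_one_of_pos hr
    nlinarith
  have h4 : 0 < a ^ (-s) := Real.rpow_pos_of_pos ha _
  rw [h1, h2]
  have h5 := mul_le_mul_of_nonneg_left h3 h4.le
  refine le_trans (le_of_eq ?_) h5
  field_simp
  ring

/-- The potential kernel `|t + m| ^ (-s)` has subgradients on `(0,1)`. -/
lemma exists_subgradient {s : ℝ} (hs : 0 < s) (m : ℤ) : ∃ c : ℝ → ℝ, ∀ a ∈ Set.Ioo (0:ℝ) 1,
    ∀ x ∈ Set.Ioo (0:ℝ) 1, |a + m| ^ (-s) + c a * (x - a) ≤ |x + m| ^ (-s) := by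
  rcases le_or_gt 0 m with hm | hm
  · have hm' : (0:ℝ) ≤ m := by exact_mod_cast hm
    refine ⟨fun a => -s * (a + m) ^ (-s - 1), ?_⟩
    rintro a ⟨ha0, _⟩ x ⟨hx0, _⟩
    rw [abs_of_pos (by linarith), abs_of_pos (by linarith)]
    have := rpow_tangent hs (show 0 < a + m by linarith) (show 0 < x + m by linarith)
    rw [add_sub_add_right_eq_sub] at this
    exact this
  · have hm' : (m:ℝ) ≤ -1 := by exact_mod_cast (by omega : m ≤ -1)
    refine ⟨fun a => s * (-(a + m)) ^ (-s - 1), ?_⟩
    rintro a ⟨_, ha1⟩ x ⟨_, hx1⟩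
    rw [abs_of_neg (by linarith), abs_of_neg (by linarith)]
    have := rpow_tangent hs (show 0 < -(a + m) by linarith) (show 0 < -(x + m) by linarith)
    have e : s * (-(a + m)) ^ (-s - 1) * (x - a) =
      (-s * (-(a + m)) ^ (-s - 1)) * (-(x + m) - -(a + m)) := by ring
    simp only
    rw [e]
    exact this

/-- the periodised sum of `|t + m| ^ (-s)` -/
noncomputable def per (s : ℝ) (t : ℝ) : ℝ≥0∞ := ∑' m : ℤ, (ENNReal.ofReal |t + m|) ^ (-s)

lemma per_add_int (s t : ℝ) (n : ℤ) : per s (t + n) = per s t := by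
  unfold per
  rw [← (Equiv.addRight n).tsum_eq (fun m : ℤ => (ENNReal.ofReal |t + m|) ^ (-s))]
  refine tsum_congr fun m => ?_
  simp only [Equiv.coe_addRight]
  congr 3
  push_cast
  ring

/-- the constant `∑_{j ∈ ℤ} |j + 1/2| ^ (-s)` -/
noncomputable def cst (s : ℝ) : ℝ≥0∞ := ∑' j : ℤ, (ENNReal.ofReal |(j:ℝ) + 1 / 2|) ^ (-s)

lemma sum_per_equally_spaced (s : ℝ) (N : ℕ) (hN : 0 < N) :
    ∑ k ∈ range N, per s (((k:ℝ) + 1 / 2) / N) = (N : ℝ≥0∞) ^ s * cst s := by
  have hN' : (0:ℝ) < N := by exact_mod_cast hN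
  have : NeZero N := ⟨hN.ne'⟩
  unfold per cst
  rw [← ENNReal.tsum_mul_left]
  rw [← (Int.divModEquiv N).symm.tsum_eq (fun j : ℤ => (N : ℝ≥0∞) ^ s *
    (ENNReal.ofReal |(j:ℝ) + 1 / 2|) ^ (-s))]
  rw [ENNReal.tsum_prod', ENNReal.tsum_comm, tsum_fintype, Finset.sum_range]
  refine Finset.sum_congr rfl fun k _ => tsum_congr fun m => ?_
  have h1 : ((Int.divModEquiv N).symm (m, k) : ℝ) + 1 / 2 = N * (((k:ℝ) + 1 / 2) / N + m) := by
    simp only [Int.divModEquiv]
    simp
    field_simp
    ring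
  rw [h1, abs_mul, abs_of_pos hN', ENNReal.ofReal_mul hN'.le, ENNReal.ofReal_natCast]
  rw [ENNReal.mul_rpow_of_ne_top (by simp) (by simp), ← mul_assoc, ← ENNReal.rpow_add _ _
    (by exact_mod_cast hN.ne') (by simp)]
  simp

/-- sum of `g (w j)`-type quantities over one period -/
lemma sum_rotate (N : ℕ) (hN : 0 < N) (i : ℕ) (hi : N ≤ i) (g : ℕ → ℝ≥0∞) :
    ∑ k ∈ range N, g ((i - 1 - k) % N) = ∑ j ∈ range N, g j := by
  refine sum_bij' (fun k _ => (i - 1 - k) % N) (fun j _ => (i - 1 + N - j) % N) ?_ ?_ ?_ ?_ ?_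
  · intro k _; exact mem_range.2 (Nat.mod_lt _ hN)
  · intro j _; exact mem_range.2 (Nat.mod_lt _ hN)
  · intro k hk
    have hk := mem_range.1 hk
    have h1 : (i - 1 - k) % N < N := Nat.mod_lt _ hN
    have h2 : (i - 1 - k) % N + N * ((i - 1 - k) / N) = i - 1 - k := Nat.mod_add_div _ _
    have h3 : i - 1 + N - (i - 1 - k) % N = k + N * ((i - 1 - k) / N + 1) := by
      rw [mul_add, mul_one]; omega
    rw [h3, Nat.add_mul_mod_self_left, Nat.mod_eq_of_lt hk]
  · intro j hj
    have hj := mem_range.1 hj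
    have h1 : (i - 1 + N - j) % N < N := Nat.mod_lt _ hN
    have h2 : (i - 1 + N - j) % N + N * ((i - 1 + N - j) / N) = i - 1 + N - j := Nat.mod_add_div _ _
    have h4 : 1 ≤ (i - 1 + N - j) / N := (Nat.one_le_div_iff hN).2 (by omega)
    obtain ⟨r, hr⟩ : ∃ r, (i - 1 + N - j) / N = r + 1 := ⟨(i - 1 + N - j) / N - 1, by omega⟩
    rw [hr, mul_add, mul_one] at h2
    have h5 : i - 1 - (i - 1 + N - j) % N = j + N * r := by omega
    rw [h5, Nat.add_mul_mod_self_left, Nat.mod_eq_of_lt hj]
  · intro k _; rfl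

/-- The polarization inequality for `N` points of `[0,1]` (sorted). -/
lemma hks_sorted {s : ℝ} (hs : 0 < s) (N : ℕ) (hN : 0 < N) (u : ℕ → ℝ)
    (hu : ∀ j < N, u j ∈ Set.Icc (0:ℝ) 1) (hmono : ∀ j, j + 1 < N → u j ≤ u (j + 1)) :
    ∃ y : ℝ, ∑ j ∈ range N, per s (y - u j) ≤ (N : ℝ≥0∞) ^ s * cst s := by
  have hN' : (0:ℝ) < N := by exact_mod_cast hN
  -- quasi-periodic extension
  set w : ℕ → ℝ := fun j => u (j % N) + (j / N : ℕ) with hw
  have hwmono : Monotone w := by
    refine monotone_nat_of_le_succ fun j => ?_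
    simp only [hw]
    have h1 : j % N < N := Nat.mod_lt _ hN
    by_cases h : j % N + 1 < N
    · have h2 : (j + 1) % N = j % N + 1 := by
        rw [Nat.add_mod, Nat.mod_eq_of_lt (show 1 < N by omega), Nat.mod_eq_of_lt h]
      have h3 : (j + 1) / N = j / N := by
        rw [Nat.succ_div_of_mod_ne_zero (by rw [h2]; omega)]
      rw [h2, h3]
      linarith [hmono _ h]
    · have h2 : (j + 1) % N = 0 := by
        have : j + 1 = (j % N + 1) + N * (j / N) := by
          have := Nat.mod_add_div j N; omega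
        rw [this, Nat.add_mul_mod_self_left, show j % N + 1 = N by omega, Nat.mod_self]
      have h3 : (j + 1) / N = j / N + 1 := by
        rw [Nat.succ_div_of_mod_eq_zero h2]
      rw [h2, h3]
      push_cast
      linarith [(hu (j % N) h1).2, (hu 0 hN).1]
  -- deviations from equal spacing
  set a : ℝ := (∑ j ∈ range N, (w j - j / N)) / N with ha
  set e : ℕ → ℝ := fun j => w j - j / N - a with he
  have heper : ∀ j, e (j + N) = e j := by
    intro j
    simp only [he, hw]
    rw [Nat.add_mod_right, Nat.add_div_right _ hN]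
    push_cast
    field_simp
    ring
  have hesum : ∑ j ∈ range N, e j = 0 := by
    simp only [he]
    rw [sum_sub_distrib, sum_const, card_range, nsmul_eq_mul, ha, mul_div_cancel₀ _ hN'.ne',
      sub_self]
  set T : ℕ → ℝ := fun m => ∑ j ∈ range m, e j with hT
  have hTper : ∀ m, T (m + N) = T m := by
    intro m
    simp only [hT]
    rw [add_comm m N, sum_range_add, hesum, zero_add]
    exact sum_congr rfl fun j _ => by rw [add_comm, heper]
  have hTmod : ∀ m, T m = T (m % N) := by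
    intro m
    have : ∀ r q, T (r + N * q) = T r := by
      intro r q
      induction q with
      | zero => simp
      | succ q ih => rw [mul_add, mul_one, ← add_assoc, hTper, ih]
    conv_lhs => rw [← Nat.mod_add_div m N]
    exact this _ _
  obtain ⟨i1, hi1, hmin⟩ := exists_min_image (range N) T ⟨0, mem_range.2 hN⟩
  have hi1 := mem_range.1 hi1
  have hmin' : ∀ m, T i1 ≤ T m := fun m => by
    rw [hTmod m]; exact hmin _ (mem_range.2 (Nat.mod_lt _ hN))
  set i := i1 + N with hi
  set y : ℝ := a + (i - 1 / 2) / N with hy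
  set t : ℕ → ℝ := fun k => y - w (i - 1 - k) with ht
  set t' : ℕ → ℝ := fun k => ((k:ℝ) + 1 / 2) / N with ht'
  have hdiff : ∀ k < N, t' k - t k = e (i - 1 - k) := by
    intro k hk
    have : ((i - 1 - k : ℕ) : ℝ) = i - 1 - k := by
      rw [Nat.cast_sub (by omega), Nat.cast_sub (by omega)]; simp
    simp only [ht', ht, he, hy, this]
    field_simp
    ring
  have hpartsum : ∀ m ≤ N, ∑ k ∈ range m, (t' k - t k) = T i - T (i - m) := by
    intro m
    induction m with
    | zero => intro _; simp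
    | succ m ih =>
      intro hm
      rw [sum_range_succ, ih (by omega), hdiff m (by omega)]
      have : T (i - m) = T (i - (m + 1)) + e (i - 1 - m) := by
        rw [show i - m = (i - (m + 1)) + 1 by omega]
        simp only [hT]
        rw [sum_range_succ, show i - 1 - m = i - (m + 1) by omega]
      rw [this]; ring
  have hTi : T i = T i1 := hTper i1
  have hpart : ∀ m ≤ N, ∑ k ∈ range m, t' k ≤ ∑ k ∈ range m, t k := by
    intro m hm
    have h1 := hpartsum m hm
    rw [sum_sub_distrib, hTi] at h1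
    linarith [hmin' (i - m)]
  have htot : ∑ k ∈ range N, t' k = ∑ k ∈ range N, t k := by
    have h1 := hpartsum N le_rfl
    rw [sum_sub_distrib, hTi, show i - N = i1 by omega] at h1
    linarith
  have htmono : ∀ k, k + 1 < N → t k ≤ t (k + 1) := by
    intro k hk
    simp only [ht]
    have := hwmono (show i - 1 - (k + 1) ≤ i - 1 - k by omega)
    linarith
  have ht'mem : ∀ k < N, t' k ∈ Set.Ioo (0:ℝ) 1 := by
    intro k hk
    have hk' : (k:ℝ) + 1 ≤ N := by exact_mod_cast hk
    simp only [ht']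
    exact ⟨by positivity, by rw [div_lt_one hN']; linarith⟩
  have htmem : ∀ k < N, t k ∈ Set.Ioo (0:ℝ) 1 := by
    have hmono' : ∀ k l, k ≤ l → l < N → t k ≤ t l := by
      intro k l hkl
      induction l, hkl using Nat.le_induction with
      | base => intro _; exact le_rfl
      | succ l _ ih => intro hl; exact (ih (by omega)).trans (htmono l hl)
    have h0 : 0 < t 0 := by
      have := hpart 1 (by omega)
      simp only [sum_range_one] at this
      exact lt_of_lt_of_le (ht'mem 0 hN).1 this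
    have h1 : t (N - 1) < 1 := by
      have h2 := hpart (N - 1) (by omega)
      have h3 : ∑ k ∈ range N, t' k = ∑ k ∈ range (N - 1), t' k + t' (N - 1) := by
        rw [← sum_range_succ, Nat.sub_add_cancel hN]
      have h4 : ∑ k ∈ range N, t k = ∑ k ∈ range (N - 1), t k + t (N - 1) := by
        rw [← sum_range_succ, Nat.sub_add_cancel hN]
      rw [h3, h4] at htot
      linarith [(ht'mem (N - 1) (by omega)).2]
    intro k hk
    exact ⟨lt_of_lt_of_le h0 (hmono' 0 k (by omega) hk),
      lt_of_le_of_lt (hmono' k (N - 1) (by omega) (by omega)) h1⟩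
  refine ⟨y, ?_⟩
  have hper : ∀ k < N, per s (t k) = per s (y - u ((i - 1 - k) % N)) := by
    intro k hk
    simp only [ht, hw]
    rw [← per_add_int s _ (((i - 1 - k) / N : ℕ) : ℤ)]
    congr 1
    rw [Int.cast_natCast]
    ring
  rw [← sum_rotate N hN i (by omega) (fun j => per s (y - u j))]
  rw [← sum_per_equally_spaced s N hN]
  calc ∑ k ∈ range N, per s (y - u ((i - 1 - k) % N)) = ∑ k ∈ range N, per s (t k) :=
        sum_congr rfl fun k hk => (hper k (mem_range.1 hk)).symm
    _ ≤ ∑ k ∈ range N, per s (t' k) := by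
        unfold per
        rw [← Summable.tsum_finsetSum (fun _ _ => ENNReal.summable),
          ← Summable.tsum_finsetSum (fun _ _ => ENNReal.summable)]
        refine ENNReal.tsum_le_tsum fun m => ?_
        obtain ⟨c, hc⟩ := exists_subgradient hs m
        have h1 := karamata N (fun t => |t + m| ^ (-s)) c hc t t' htmem ht'mem htmono hpart htot
        have hne : ∀ x ∈ Set.Ioo (0:ℝ) 1, 0 < |x + m| := by
          rintro x ⟨hx0, hx1⟩
          rw [abs_pos]
          intro h
          rcases le_or_gt 0 m with hm | hm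
          · have hm' : (0:ℝ) ≤ m := by exact_mod_cast hm
            linarith
          · have hm' : (m:ℝ) ≤ -1 := by exact_mod_cast (by omega : m ≤ -1)
            linarith
        have h2 : ∀ τ : ℕ → ℝ, (∀ k < N, τ k ∈ Set.Ioo (0:ℝ) 1) →
            ∑ k ∈ range N, (ENNReal.ofReal |τ k + m|) ^ (-s)
              = ENNReal.ofReal (∑ k ∈ range N, |τ k + m| ^ (-s)) := by
          intro τ hτ
          rw [ENNReal.ofReal_sum_of_nonneg (fun k _ => Real.rpow_nonneg (abs_nonneg _) _)]
          refine sum_congr rfl fun k hk => ?_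
          rw [ENNReal.ofReal_rpow_of_pos (hne _ (hτ k (mem_range.1 hk)))]
        rw [h2 t htmem, h2 t' ht'mem]
        exact ENNReal.ofReal_le_ofReal h1

/-- The polarization inequality for `N` points of `[0,1]`. -/
theorem hks {s : ℝ} (hs : 0 < s) (N : ℕ) (hN : 0 < N) (x : Fin N → ℝ)
    (hx : ∀ j, x j ∈ Set.Icc (0:ℝ) 1) :
    ∃ y ∈ Set.Icc (0:ℝ) 1, ∑ j, (ENNReal.ofReal |y - x j|) ^ (-s) ≤ (N : ℝ≥0∞) ^ s * cst s := by
  set σ := Tuple.sort x
  have hmono : Monotone (x ∘ σ) := Tuple.monotone_sort x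
  obtain ⟨y, hy⟩ := hks_sorted hs N hN (fun j => if h : j < N then x (σ ⟨j, h⟩) else 0)
    (fun j hj => by simp only [hj, dif_pos]; exact hx _)
    (fun j hj => by
      simp only [hj, show j < N by omega, dif_pos]
      exact hmono (by simp))
  refine ⟨Int.fract y, ⟨Int.fract_nonneg y, (Int.fract_lt_one y).le⟩, le_trans ?_ hy⟩
  rw [Finset.sum_range]
  simp only [Fin.is_lt, dif_pos, Fin.eta]
  rw [← Equiv.sum_comp σ]
  refine Finset.sum_le_sum fun j _ => ?_
  unfold per
  refine le_trans (le_of_eq ?_) (ENNReal.le_tsum (-⌊y⌋))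
  rw [Int.fract]
  congr 3
  push_cast
  ring

end Pool.Agent.R222.Polar
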