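import Mathlib
import Pool.Agent.R222.Polar.Hks

set_option autoImplicit false

open Finset MeasureTheory
open scoped ENNReal

namespace Pool.Agent.R222.Polar

lemma rpow_neg_anti {s : ℝ} (hs : 0 ≤ s) {a b : ℝ≥0∞} (h : a ≤ b) : b ^ (-s) ≤ a ^ (-s) := by
  rw [ENNReal.rpow_neg, ENNReal.rpow_neg, ENNReal.inv_le_inv]
  exact ENNReal.rpow_le_rpow h hs

/-- the normalised distribution function of `K` -/
noncomputable def phi (K : Set ℝ) (t : ℝ) : ℝ := (volume (K ∩ Set.Iic t)).toReal / (volume K).toReal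

variable {K : Set ℝ}

lemma phi_lip (hK : IsCompact K) (hpos : 0 < volume K) (a b : ℝ) :
    (volume K).toReal * |phi K a - phi K b| ≤ |a - b| := by
  have hfin : ∀ t, volume (K ∩ Set.Iic t) ≠ ⊤ := fun t =>
    (lt_of_le_of_lt (measure_mono Set.inter_subset_left) hK.measure_lt_top).ne
  have hℓ : 0 < (volume K).toReal := ENNReal.toReal_pos hpos.ne' hK.measure_lt_top.ne
  have main : ∀ a b : ℝ, a ≤ b → (volume K).toReal * |phi K a - phi K b| ≤ |a - b| := by
    intro a b hab
    have h1 : (volume (K ∩ Set.Iic a)).toReal ≤ (volume (K ∩ Set.Iic b)).toReal :=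
      ENNReal.toReal_mono (hfin b)
        (measure_mono (Set.inter_subset_inter_right _ (Set.Iic_subset_Iic.2 hab)))
    have h2 : (volume (K ∩ Set.Iic b)).toReal ≤ (volume (K ∩ Set.Iic a)).toReal + (b - a) := by
      have : volume (K ∩ Set.Iic b) ≤ volume (K ∩ Set.Iic a) + ENNReal.ofReal (b - a) := by
        rw [← Real.volume_Ioc]
        refine le_trans (measure_mono ?_) (measure_union_le _ _)
        rintro x ⟨hxK, hxb⟩
        by_cases hxa : x ≤ a
        · exact Or.inl ⟨hxK, hxa⟩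
        · exact Or.inr ⟨lt_of_not_ge hxa, hxb⟩
      have h3 := ENNReal.toReal_mono (ENNReal.add_ne_top.2 ⟨hfin a, ENNReal.ofReal_ne_top⟩) this
      rwa [ENNReal.toReal_add (hfin a) ENNReal.ofReal_ne_top,
        ENNReal.toReal_ofReal (by linarith)] at h3
    have h4 : phi K a - phi K b = ((volume (K ∩ Set.Iic a)).toReal
        - (volume (K ∩ Set.Iic b)).toReal) / (volume K).toReal := by
      unfold phi; rw [sub_div]
    rw [h4, abs_div, abs_of_pos hℓ, mul_div_cancel₀ _ hℓ.ne', abs_of_nonpos (by linarith),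
      abs_of_nonpos (by linarith)]
    linarith
  rcases le_total a b with h | h
  · exact main a b h
  · rw [abs_sub_comm, abs_sub_comm a b]; exact main b a h

lemma phi_mem (hK : IsCompact K) (t : ℝ) : phi K t ∈ Set.Icc (0:ℝ) 1 := by
  constructor
  · unfold phi; positivity
  · unfold phi
    exact div_le_one_of_le₀ (ENNReal.toReal_mono hK.measure_lt_top.ne
      (measure_mono Set.inter_subset_left)) ENNReal.toReal_nonneg

lemma phi_surj (hK : IsCompact K) (hK01 : K ⊆ Set.Icc (0:ℝ) 1) (hpos : 0 < volume K) {y : ℝ}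
    (hy : y ∈ Set.Icc (0:ℝ) 1) : ∃ z ∈ K, phi K z = y := by
  have hℓ : 0 < (volume K).toReal := ENNReal.toReal_pos hpos.ne' hK.measure_lt_top.ne
  have hne : K.Nonempty := by
    rw [Set.nonempty_iff_ne_empty]; rintro rfl; simp at hpos
  have hcont : Continuous (phi K) := by
    rw [Metric.continuous_iff]
    intro b ε hε
    refine ⟨(volume K).toReal * ε, by positivity, fun a ha => ?_⟩
    rw [Real.dist_eq] at ha ⊢
    have := phi_lip hK hpos a b
    have h2 : (volume K).toReal * |phi K a - phi K b| < (volume K).toReal * ε :=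
      lt_of_le_of_lt this ha
    exact lt_of_mul_lt_mul_left h2 hℓ.le
  have h0 : phi K (-1) = 0 := by
    unfold phi
    have : K ∩ Set.Iic (-1) = ∅ := by
      rw [Set.eq_empty_iff_forall_notMem]
      rintro x ⟨hx, hx1⟩
      have := (hK01 hx).1
      simp only [Set.mem_Iic] at hx1
      linarith
    rw [this]; simp
  have h1 : phi K 1 = 1 := by
    unfold phi
    have : K ∩ Set.Iic 1 = K := Set.inter_eq_left.2 fun x hx => (hK01 hx).2
    rw [this, div_self hℓ.ne']
  obtain ⟨t, _, ht⟩ := intermediate_value_Icc (show (-1:ℝ) ≤ 1 by norm_num) hcont.continuousOn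
    (show y ∈ Set.Icc (phi K (-1)) (phi K 1) by rw [h0, h1]; exact hy)
  by_cases hemp : (K ∩ Set.Iic t).Nonempty
  · have hcomp : IsCompact (K ∩ Set.Iic t) := hK.inter_right isClosed_Iic
    set z := sSup (K ∩ Set.Iic t)
    have hz : z ∈ K ∩ Set.Iic t := hcomp.sSup_mem hemp
    refine ⟨z, hz.1, ?_⟩
    rw [← ht]
    unfold phi
    congr 3
    ext x
    constructor
    · rintro ⟨hx, hxz⟩; exact ⟨hx, (Set.mem_Iic.1 hxz).trans (Set.mem_Iic.1 hz.2)⟩
    · rintro ⟨hx, hxt⟩
      exact ⟨hx, le_csSup hcomp.bddAbove ⟨hx, hxt⟩⟩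
  · rw [Set.not_nonempty_iff_eq_empty] at hemp
    have hy0 : y = 0 := by rw [← ht]; unfold phi; rw [hemp]; simp
    refine ⟨sInf K, hK.sInf_mem hne, ?_⟩
    rw [hy0]
    unfold phi
    have : volume (K ∩ Set.Iic (sInf K)) = 0 := by
      refine measure_mono_null ?_ (Real.volume_singleton (a := sInf K))
      rintro x ⟨hx, hx1⟩
      exact le_antisymm hx1 (csInf_le hK.bddBelow hx)
    rw [this]; simp

/-- upper bound for the polarization constants -/
theorem upper {s : ℝ} (hs : 0 < s) (hK : IsCompact K) (hK01 : K ⊆ Set.Icc (0:ℝ) 1)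
    (hpos : 0 < volume K) (N : ℕ) (hN : 0 < N) (x : Fin N → ℝ) :
    ⨅ y ∈ K, ∑ j, (ENNReal.ofReal |y - x j|) ^ (-s) ≤
      (volume K) ^ (-s) * ((N : ℝ≥0∞) ^ s * cst s) := by
  obtain ⟨y, hy, hsum⟩ := hks hs N hN (fun j => phi K (x j)) (fun j => phi_mem hK _)
  obtain ⟨z, hzK, hz⟩ := phi_surj hK hK01 hpos hy
  refine le_trans (iInf₂_le z hzK) ?_
  refine le_trans ?_ (mul_le_mul_right hsum _)
  rw [Finset.mul_sum]
  refine Finset.sum_le_sum fun j _ => ?_
  have hfin : volume K ≠ ⊤ := hK.measure_lt_top.ne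
  rw [← ENNReal.mul_rpow_of_ne_top hfin ENNReal.ofReal_ne_top]
  refine rpow_neg_anti hs.le ?_
  rw [← ENNReal.ofReal_toReal hfin, ← ENNReal.ofReal_mul ENNReal.toReal_nonneg, ← hz]
  exact ENNReal.ofReal_le_ofReal (phi_lip hK hpos _ _)

end Pool.Agent.R222.Polar
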