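import Mathlib
import Pool.Agent.R222.Polar.Hks
import Pool.Agent.R222.Polar.Upper

set_option autoImplicit false

open Finset MeasureTheory Filter Topology
open scoped ENNReal

namespace Pool.Agent.R222.Polar

/-- Finitely many cells of width `h` contained in `T`. -/
lemma count_cells {h : ℝ} (hh : 0 < h) (F : Finset ℤ) (T : Set ℝ)
    (hF : ∀ a ∈ F, ∀ t : ℝ, ⌊t / h⌋ = a → t ∈ T) :
    (F.card : ℝ≥0∞) * ENNReal.ofReal h ≤ volume T := by
  have hcell : ∀ a : ℤ, {t : ℝ | ⌊t / h⌋ = a} = Set.Ico (a * h) ((a + 1) * h) := by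
    intro a
    ext t
    simp only [Set.mem_ofPred_eq, Set.mem_Ico, Int.floor_eq_iff]
    rw [le_div_iff₀ hh, div_lt_iff₀ hh]
  have h1 : volume (⋃ a ∈ F, {t : ℝ | ⌊t / h⌋ = a}) = ∑ a ∈ F, volume {t : ℝ | ⌊t / h⌋ = a} := by
    refine measure_biUnion_finset ?_ fun a _ => by rw [hcell]; exact measurableSet_Ico
    intro a _ b _ hab
    refine Set.disjoint_left.2 fun t ht ht' => hab ?_
    exact ht.symm.trans ht'
  have h2 : ∑ a ∈ F, volume {t : ℝ | ⌊t / h⌋ = a} = (F.card : ℝ≥0∞) * ENNReal.ofReal h := by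
    rw [Finset.sum_congr rfl (fun a _ => by rw [hcell, Real.volume_Ico]), ← nsmul_eq_mul,
      ← Finset.sum_const]
    refine Finset.sum_congr rfl fun a _ => ?_
    congr 1; ring
  rw [← h2, ← h1]
  refine measure_mono ?_
  intro t ht
  simp only [Set.mem_iUnion] at ht
  obtain ⟨a, ha, hta⟩ := ht
  exact hF a ha t hta

/-- sum over a set hit by an enumeration -/
lemma sum_le_of_surj {N : ℕ} (e : Fin N → ℤ) (A : Finset ℤ) (hA : ∀ j ∈ A, ∃ i, e i = j)
    (g : ℤ → ℝ≥0∞) : ∑ j ∈ A, g j ≤ ∑ i, g (e i) := by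
  classical
  rcases A.eq_empty_or_nonempty with rfl | hne
  · simp
  have : Nonempty (Fin N) := by
    obtain ⟨j, hj⟩ := hne
    exact ⟨(hA j hj).choose⟩
  choose! σ hσ using hA
  have hinj : Set.InjOn σ A := by
    intro a ha b hb hab
    rw [← hσ a ha, ← hσ b hb, hab]
  calc ∑ j ∈ A, g j = ∑ j ∈ A, g (e (σ j)) := Finset.sum_congr rfl fun j hj => by rw [hσ j hj]
    _ = ∑ i ∈ A.image σ, g (e i) := by rw [Finset.sum_image hinj]
    _ ≤ ∑ i, g (e i) := Finset.sum_le_sum_of_subset (Finset.subset_univ _)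

lemma pair_bound {s : ℝ} (hs : 0 < s) {D1 D2 : ℝ} (h1 : 0 < D1) (h2 : 0 < D2) :
    2 * ((D1 + D2) / 2) ^ (-s) ≤ D1 ^ (-s) + D2 ^ (-s) := by
  have ha : 0 < (D1 + D2) / 2 := by positivity
  have t1 := rpow_tangent hs ha h1
  have t2 := rpow_tangent hs ha h2
  have : D1 - (D1 + D2) / 2 = -(D2 - (D1 + D2) / 2) := by ring
  rw [this] at t1
  linarith

lemma term_bound {s : ℝ} (hs : 0 < s) {a b D : ℝ} (hD : 0 < D) (h : |a - b| ≤ D) :
    ENNReal.ofReal (D ^ (-s)) ≤ (ENNReal.ofReal |a - b|) ^ (-s) := by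
  rw [← ENNReal.ofReal_rpow_of_pos hD]
  exact rpow_neg_anti hs.le (ENNReal.ofReal_le_ofReal h)

/-- The value guaranteed by the grid construction. -/
noncomputable def val (s : ℝ) (M q : ℕ) : ℝ :=
  min ((q:ℝ) ^ s) (∑ k ∈ range M, 2 * ((k:ℝ) + 1 / 2 + 1 / q) ^ (-s))

/-- The grid configuration, for a fixed mesh. -/
lemma grid {K : Set ℝ} (hK01 : K ⊆ Set.Icc (0:ℝ) 1) {s : ℝ} (hs : 0 < s) (M q : ℕ) (hq : 0 < q)
    {h : ℝ} (hh : 0 < h) :
    ∃ (J A1 A2 E : Finset ℤ) (p : ℤ → ℝ),
      (∀ y ∈ K, ⌊y / (h / q)⌋ ∈ J) ∧ (∀ j ∈ J, p j ∈ K ∧ ⌊p j / (h / q)⌋ = j) ∧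
      A1 ⊆ J ∧ A2 ⊆ J ∧ (∀ j ∈ A1, (q:ℤ) ∣ j) ∧
      (∀ k ∈ E, k ∉ J ∧ ∃ j ∈ J, |k - j| ≤ (M * q : ℕ)) ∧
      A2.card ≤ (2 * (M * q) + 1) * E.card ∧
      ∀ y ∈ K, ENNReal.ofReal (h ^ (-s) * val s M q) ≤
        ∑ j ∈ A1 ∪ A2, (ENNReal.ofReal |y - p j|) ^ (-s) := by
  classical
  have hq' : (0:ℝ) < q := by exact_mod_cast hq
  set w : ℝ := h / q with hw
  have hwpos : 0 < w := by positivity
  have hwq : w * q = h := by rw [hw]; field_simp
  set R : ℕ := M * q with hR
  set J : Finset ℤ := (Finset.Icc 0 ⌊1 / w⌋).filter (fun j => ∃ y ∈ K, ⌊y / w⌋ = j) with hJ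
  have hJmem : ∀ j, j ∈ J ↔ ∃ y ∈ K, ⌊y / w⌋ = j := by
    intro j
    rw [hJ, Finset.mem_filter, Finset.mem_Icc]
    constructor
    · exact fun h => h.2
    · rintro ⟨y, hy, rfl⟩
      refine ⟨⟨Int.floor_nonneg.2 (div_nonneg (hK01 hy).1 hwpos.le), Int.floor_le_floor ?_⟩,
        y, hy, rfl⟩
      exact div_le_div_of_nonneg_right (hK01 hy).2 hwpos.le
  have hp : ∀ j : ℤ, ∃ t : ℝ, j ∈ J → t ∈ K ∧ ⌊t / w⌋ = j := by
    intro j
    by_cases hj : j ∈ J
    · obtain ⟨y, hy, hyj⟩ := (hJmem j).1 hj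
      exact ⟨y, fun _ => ⟨hy, hyj⟩⟩
    · exact ⟨0, fun h => absurd h hj⟩
  choose p hp using hp
  set A1 := J.filter (fun j => (q:ℤ) ∣ j) with hA1
  set E : Finset ℤ := (Finset.Icc (-(R:ℤ)) (⌊1 / w⌋ + R)).filter
    (fun k => k ∉ J ∧ ∃ j ∈ J, |k - j| ≤ (R:ℕ)) with hE
  set A2 := J.filter (fun j => ∃ k, k ∉ J ∧ |k - j| ≤ (R:ℕ)) with hA2
  refine ⟨J, A1, A2, E, p, fun y hy => (hJmem _).2 ⟨y, hy, rfl⟩, hp, filter_subset _ _,
    filter_subset _ _, fun j hj => (mem_filter.1 hj).2, fun k hk => (mem_filter.1 hk).2, ?_, ?_⟩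
  · have hsub : A2 ⊆ E.biUnion (fun k => Finset.Icc (k - R) (k + R)) := by
      intro j hj
      obtain ⟨hjJ, k, hkJ, hkj⟩ := mem_filter.1 hj
      have hjI := Finset.mem_Icc.1 (mem_filter.1 hjJ).1
      have := abs_le.1 hkj
      refine mem_biUnion.2 ⟨k, mem_filter.2 ⟨Finset.mem_Icc.2 ⟨by linarith, by linarith⟩,
        hkJ, j, hjJ, hkj⟩, Finset.mem_Icc.2 ⟨by linarith, by linarith⟩⟩
    refine (card_le_card hsub).trans ?_
    rw [mul_comm]
    refine card_biUnion_le_card_mul _ _ _ fun k _ => ?_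
    rw [Int.card_Icc]
    omega
  · intro y hy
    set i := ⌊y / w⌋ with hi
    have hiJ : i ∈ J := (hJmem _).2 ⟨y, hy, rfl⟩
    have hi1 : (i:ℝ) * w ≤ y := by
      have := Int.floor_le (y / w)
      rwa [le_div_iff₀ hwpos] at this
    have hi2 : y < ((i:ℝ) + 1) * w := by
      have := Int.lt_floor_add_one (y / w)
      rwa [div_lt_iff₀ hwpos] at this
    by_cases hbad : i ∈ A2
    · -- the point of the same small cell
      have hpi := hp i hiJ
      have hp1 : (i:ℝ) * w ≤ p i := by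
        have := Int.floor_le (p i / w)
        rw [hpi.2] at this
        rwa [le_div_iff₀ hwpos] at this
      have hp2 : p i < ((i:ℝ) + 1) * w := by
        have := Int.lt_floor_add_one (p i / w)
        rw [hpi.2] at this
        rwa [div_lt_iff₀ hwpos] at this
      have h1 : |y - p i| ≤ w := by
        rw [abs_le]; constructor <;> nlinarith
      refine le_trans ?_ (Finset.single_le_sum (f := fun j => (ENNReal.ofReal |y - p j|) ^ (-s))
        (fun _ _ => zero_le) (mem_union_right _ hbad))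
      refine le_trans (ENNReal.ofReal_le_ofReal ?_) (term_bound hs hwpos h1)
      have h2 : w ^ (-s) = h ^ (-s) * (q:ℝ) ^ s := by
        rw [hw, Real.div_rpow hh.le hq'.le, Real.rpow_neg hq'.le, div_inv_eq_mul]
      rw [h2]
      exact mul_le_mul_of_nonneg_left (min_le_left _ _) (Real.rpow_nonneg hh.le _)
    · -- good position
      have hgood : ∀ k : ℤ, |k - i| ≤ (R:ℕ) → k ∈ J := by
        intro k hk
        by_contra hkJ
        exact hbad (mem_filter.2 ⟨hiJ, k, hkJ, hk⟩)
      set a : ℤ := i / q with ha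
      have hai : (q:ℤ) * a + i % q = i := by rw [add_comm]; exact Int.emod_add_mul_ediv i q
      have hr0 : 0 ≤ i % q := Int.emod_nonneg _ (by omega)
      have hr1 : i % q < q := Int.emod_lt_of_pos _ (by omega)
      have hRz : ((R:ℕ):ℤ) = M * q := by rw [hR]; push_cast; ring
      have hmem1 : ∀ k ∈ range M, (q:ℤ) * (a - k) ∈ A1 := by
        intro k hk
        have hk := mem_range.1 hk
        refine mem_filter.2 ⟨hgood _ ?_, dvd_mul_right _ _⟩
        have hk' : (k:ℤ) + 1 ≤ M := by exact_mod_cast hk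
        rw [hRz, abs_le]
        constructor <;> nlinarith
      have hmem2 : ∀ k ∈ range M, (q:ℤ) * (a + k + 1) ∈ A1 := by
        intro k hk
        have hk := mem_range.1 hk
        refine mem_filter.2 ⟨hgood _ ?_, dvd_mul_right _ _⟩
        have hk' : (k:ℤ) + 1 ≤ M := by exact_mod_cast hk
        rw [hRz, abs_le]
        constructor <;> nlinarith
      have hqz : (q:ℤ) ≠ 0 := by omega
      have inj1 : Set.InjOn (fun k : ℕ => (q:ℤ) * (a - k)) (range M) := by
        intro k _ l _ hkl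
        have := mul_left_cancel₀ hqz hkl
        omega
      have inj2 : Set.InjOn (fun k : ℕ => (q:ℤ) * (a + k + 1)) (range M) := by
        intro k _ l _ hkl
        have := mul_left_cancel₀ hqz hkl
        omega
      have hdisj : Disjoint ((range M).image (fun k : ℕ => (q:ℤ) * (a - k)))
          ((range M).image (fun k : ℕ => (q:ℤ) * (a + k + 1))) := by
        rw [Finset.disjoint_left]
        rintro x hx hx'
        obtain ⟨k, _, rfl⟩ := mem_image.1 hx
        obtain ⟨l, _, hl⟩ := mem_image.1 hx'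
        have := mul_left_cancel₀ hqz hl
        omega
      have hsub : (range M).image (fun k : ℕ => (q:ℤ) * (a - k)) ∪
          (range M).image (fun k : ℕ => (q:ℤ) * (a + k + 1)) ⊆ A1 ∪ A2 := by
        intro x hx
        rcases mem_union.1 hx with hx | hx
        · obtain ⟨k, hk, rfl⟩ := mem_image.1 hx
          exact mem_union_left _ (hmem1 k hk)
        · obtain ⟨k, hk, rfl⟩ := mem_image.1 hx
          exact mem_union_left _ (hmem2 k hk)
      refine le_trans ?_ (Finset.sum_le_sum_of_subset hsub)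
      rw [Finset.sum_union hdisj, Finset.sum_image inj1, Finset.sum_image inj2,
        ← Finset.sum_add_distrib]
      -- location of `y` and the points
      have hya1 : (a:ℝ) * h ≤ y := by
        have h1 : ((q:ℝ) * a) ≤ i := by
          have : (q:ℤ) * a ≤ i := by linarith
          exact_mod_cast this
        calc (a:ℝ) * h = ((q:ℝ) * a) * w := by rw [← hwq]; ring
          _ ≤ i * w := mul_le_mul_of_nonneg_right h1 hwpos.le
          _ ≤ y := hi1
      have hya2 : y < ((a:ℝ) + 1) * h := by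
        have h1 : (i:ℝ) + 1 ≤ (q:ℝ) * (a + 1) := by
          have : i + 1 ≤ (q:ℤ) * (a + 1) := by rw [mul_add, mul_one]; linarith
          exact_mod_cast this
        calc y < ((i:ℝ) + 1) * w := hi2
          _ ≤ ((q:ℝ) * (a + 1)) * w := mul_le_mul_of_nonneg_right h1 hwpos.le
          _ = ((a:ℝ) + 1) * h := by rw [← hwq]; ring
      have hploc : ∀ b : ℤ, (q:ℤ) * b ∈ J → (b:ℝ) * h ≤ p (q * b) ∧
          p (q * b) < (b:ℝ) * h + h / q := by
        intro b hb
        have hpb := hp _ hb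
        have h1 := Int.floor_le (p (q * b) / w)
        have h2 := Int.lt_floor_add_one (p (q * b) / w)
        rw [hpb.2] at h1 h2
        rw [le_div_iff₀ hwpos] at h1
        rw [div_lt_iff₀ hwpos] at h2
        push_cast at h1 h2
        have e1 : (q:ℝ) * b * w = b * h := by rw [← hwq]; ring
        refine ⟨by rw [e1] at h1; exact h1, ?_⟩
        have e2 : ((q:ℝ) * b + 1) * w = b * h + h / q := by rw [add_mul, e1, one_mul]
        rw [e2] at h2
        exact h2
      have hval : h ^ (-s) * val s M q ≤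
          ∑ k ∈ range M, 2 * (((k:ℝ) + 1 / 2 + 1 / q) * h) ^ (-s) := by
        calc h ^ (-s) * val s M q ≤
            h ^ (-s) * ∑ k ∈ range M, 2 * ((k:ℝ) + 1 / 2 + 1 / q) ^ (-s) :=
              mul_le_mul_of_nonneg_left (min_le_right _ _) (Real.rpow_nonneg hh.le _)
          _ = _ := by
            rw [Finset.mul_sum]
            refine Finset.sum_congr rfl fun k _ => ?_
            rw [Real.mul_rpow (by positivity) hh.le]
            ring
      refine le_trans (ENNReal.ofReal_le_ofReal hval) ?_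
      rw [ENNReal.ofReal_sum_of_nonneg (fun k _ => by positivity)]
      refine Finset.sum_le_sum fun k hk => ?_
      have l1 := hploc (a - k) (mem_filter.1 (hmem1 k hk)).1
      have l2 := hploc (a + k + 1) (mem_filter.1 (hmem2 k hk)).1
      push_cast at l1 l2
      have hk0 : (0:ℝ) ≤ k := Nat.cast_nonneg k
      have hhq : 0 < h / q := by positivity
      set D1 : ℝ := (y - a * h) + k * h + h / q with hD1
      set D2 : ℝ := (a + 1) * h - y + k * h + h / q with hD2
      have hkh : 0 ≤ k * h := by positivity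
      have hD1pos : 0 < D1 := by rw [hD1]; linarith
      have hD2pos : 0 < D2 := by rw [hD2]; linarith
      have b1 : |y - p (q * (a - k))| ≤ D1 := by
        rw [abs_le, hD1]
        constructor
        · nlinarith [l1.2]
        · nlinarith [l1.1]
      have b2 : |y - p (q * (a + k + 1))| ≤ D2 := by
        rw [abs_le, hD2]
        constructor
        · nlinarith [l2.2]
        · nlinarith [l2.1]
      have hsum : (D1 + D2) / 2 = ((k:ℝ) + 1 / 2 + 1 / q) * h := by
        rw [hD1, hD2]; field_simp; ring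
      calc ENNReal.ofReal (2 * (((k:ℝ) + 1 / 2 + 1 / q) * h) ^ (-s))
          ≤ ENNReal.ofReal (D1 ^ (-s) + D2 ^ (-s)) := by
            rw [← hsum]
            exact ENNReal.ofReal_le_ofReal (pair_bound hs hD1pos hD2pos)
        _ = ENNReal.ofReal (D1 ^ (-s)) + ENNReal.ofReal (D2 ^ (-s)) :=
            ENNReal.ofReal_add (by positivity) (by positivity)
        _ ≤ _ := add_le_add (term_bound hs hD1pos b1) (term_bound hs hD2pos b2)

/-- Existence of good configurations for all large `N`. -/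
theorem lower {K : Set ℝ} (hK01 : K ⊆ Set.Icc (0:ℝ) 1) (hK : IsCompact K) (hne : K.Nonempty)
    (hpos : 0 < volume K) {s : ℝ} (hs : 0 < s) (M q : ℕ) (hq : 0 < q) {η : ℝ} (hη : 0 < η) :
    ∀ᶠ N : ℕ in atTop, ∃ x : Fin N → ℝ, (∀ i, x i ∈ K) ∧ ∀ y ∈ K,
      ENNReal.ofReal ((((volume K).toReal + η) / N) ^ (-s) * val s M q) ≤
        ∑ i, (ENNReal.ofReal |y - x i|) ^ (-s) := by
  classical
  set ℓ := (volume K).toReal with hℓ
  have hℓpos : 0 < ℓ := ENNReal.toReal_pos hpos.ne' hK.measure_lt_top.ne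
  have hq' : (0:ℝ) < q := by exact_mod_cast hq
  have hcfin : ∀ δ, volume (Metric.cthickening δ K) ≠ ⊤ := fun δ =>
    (hK.cthickening).measure_lt_top.ne
  set T : ℝ → ℝ := fun h => (volume (Metric.cthickening h K)).toReal +
    q * (2 * (M * q) + 1) * ((volume (Metric.cthickening ((M + 1) * h) K)).toReal - ℓ) with hT
  have hbase : Tendsto (fun δ => (volume (Metric.cthickening δ K)).toReal) (𝓝 0) (𝓝 ℓ) :=
    (ENNReal.tendsto_toReal hK.measure_lt_top.ne).comp (tendsto_measure_cthickening_of_isCompact hK)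
  have hT0 : Tendsto T (𝓝 0) (𝓝 ℓ) := by
    have h1 : Tendsto (fun h : ℝ => ((M:ℝ) + 1) * h) (𝓝 0) (𝓝 0) := by
      have : Tendsto (fun h : ℝ => ((M:ℝ) + 1) * h) (𝓝 0) (𝓝 (((M:ℝ) + 1) * 0)) :=
        tendsto_id.const_mul _
      simpa using this
    have h2 := hbase.add (((hbase.comp h1).sub_const ℓ).const_mul ((q:ℝ) * (2 * (M * q) + 1)))
    simpa [hT] using h2
  have hh : Tendsto (fun N : ℕ => (ℓ + η) / (N:ℝ)) atTop (𝓝 0) :=
    tendsto_const_div_atTop_nhds_zero_nat _
  filter_upwards [(hT0.comp hh).eventually_lt_const (show ℓ < ℓ + η by linarith),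
    eventually_gt_atTop 0] with N hTN hN
  have hN' : (0:ℝ) < N := by exact_mod_cast hN
  set h : ℝ := (ℓ + η) / N with hhdef
  have hhpos : 0 < h := by positivity
  have hNh : N * h = ℓ + η := by rw [hhdef]; field_simp
  obtain ⟨J, A1, A2, E, p, hJ, hp, hA1J, hA2J, hA1q, hE, hcard, hpot⟩ :=
    grid hK01 hs M q hq hhpos
  have hw : 0 < h / q := by positivity
  have hwq : h / q * q = h := by field_simp
  -- counting `A1`
  have hc1 : (A1.card : ℝ) * h ≤ (volume (Metric.cthickening h K)).toReal := by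
    have h1 : (A1.image (fun j => j / (q:ℤ))).card = A1.card := by
      refine card_image_of_injOn ?_
      intro a ha b hb hab
      obtain ⟨a', rfl⟩ := hA1q a ha
      obtain ⟨b', rfl⟩ := hA1q b hb
      have hqz : (q:ℤ) ≠ 0 := by omega
      simp only [Int.mul_ediv_cancel_left _ hqz] at hab
      rw [hab]
    have h2 := count_cells hhpos (A1.image (fun j => j / (q:ℤ))) (Metric.cthickening h K) (by
      intro a ha t ht
      obtain ⟨j, hj, rfl⟩ := mem_image.1 ha
      obtain ⟨b, rfl⟩ := hA1q j hj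
      have hqz : (q:ℤ) ≠ 0 := by omega
      rw [Int.mul_ediv_cancel_left _ hqz] at ht
      have hpb := hp _ (hA1J hj)
      refine Metric.mem_cthickening_of_dist_le t _ h K hpb.1 ?_
      have h1 := Int.floor_le (p (q * b) / (h / q))
      have h2 := Int.lt_floor_add_one (p (q * b) / (h / q))
      rw [hpb.2] at h1 h2
      rw [le_div_iff₀ hw] at h1
      rw [div_lt_iff₀ hw] at h2
      push_cast at h1 h2
      have e1 : (q:ℝ) * b * (h / q) = b * h := by field_simp
      rw [e1] at h1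
      rw [add_mul, e1, one_mul] at h2
      have h3 := Int.floor_le (t / h)
      have h4 := Int.lt_floor_add_one (t / h)
      rw [ht] at h3 h4
      rw [le_div_iff₀ hhpos] at h3
      rw [div_lt_iff₀ hhpos] at h4
      have h5 : h / q ≤ h := div_le_self hhpos.le (by exact_mod_cast hq)
      rw [Real.dist_eq, abs_le]
      constructor <;> nlinarith)
    rw [h1] at h2
    have h3 := ENNReal.toReal_mono (hcfin h) h2
    rwa [ENNReal.toReal_mul, ENNReal.toReal_natCast, ENNReal.toReal_ofReal hhpos.le] at h3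
  -- counting `E`
  have hc2 : (E.card : ℝ) * (h / q) ≤
      (volume (Metric.cthickening ((M + 1) * h) K)).toReal - ℓ := by
    have hsub : K ⊆ Metric.cthickening ((M + 1) * h) K := Metric.self_subset_cthickening K
    have h2 := count_cells hw E (Metric.cthickening ((M + 1) * h) K \ K) (by
      intro k hk t ht
      obtain ⟨hkJ, j, hj, hkj⟩ := hE k hk
      refine ⟨?_, fun htK => hkJ (ht ▸ hJ t htK)⟩
      have hpb := hp _ hj
      refine Metric.mem_cthickening_of_dist_le t _ _ K hpb.1 ?_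
      have h1 := Int.floor_le (p j / (h / q))
      have h2 := Int.lt_floor_add_one (p j / (h / q))
      rw [hpb.2] at h1 h2
      rw [le_div_iff₀ hw] at h1
      rw [div_lt_iff₀ hw] at h2
      have h3 := Int.floor_le (t / (h / q))
      have h4 := Int.lt_floor_add_one (t / (h / q))
      rw [ht] at h3 h4
      rw [le_div_iff₀ hw] at h3
      rw [div_lt_iff₀ hw] at h4
      have hkj' := abs_le.1 hkj
      have e1 : ((k:ℝ) - j) ≤ M * q := by
        have := hkj'.2
        exact_mod_cast this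
      have e2 : -((M:ℝ) * q) ≤ (k:ℝ) - j := by
        have := hkj'.1
        exact_mod_cast this
      have h5 : h / q ≤ h := div_le_self hhpos.le (by exact_mod_cast hq)
      have e3 := mul_le_mul_of_nonneg_right e1 hw.le
      have e4 := mul_le_mul_of_nonneg_right e2 hw.le
      have e5 : (M:ℝ) * q * (h / q) = M * h := by field_simp
      rw [e5] at e3
      rw [neg_mul, e5] at e4
      rw [Real.dist_eq, abs_le]
      constructor <;> nlinarith)
    rw [measure_sdiff hsub hK.isClosed.nullMeasurableSet hK.measure_lt_top.ne] at h2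
    have h3 := ENNReal.toReal_mono (ENNReal.sub_ne_top (hcfin _)) h2
    rwa [ENNReal.toReal_mul, ENNReal.toReal_natCast, ENNReal.toReal_ofReal hw.le,
      ENNReal.toReal_sub_of_le (measure_mono hsub) (hcfin _)] at h3
  -- total count
  have hcA : (A1 ∪ A2).card ≤ N := by
    have h1 : ((A1 ∪ A2).card : ℝ) ≤ A1.card + A2.card := by
      exact_mod_cast card_union_le A1 A2
    have h2 : (A2.card : ℝ) ≤ (2 * (M * q) + 1) * E.card := by exact_mod_cast hcard
    have h3 : (A2.card : ℝ) * h ≤ q * (2 * (M * q) + 1) *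
        ((volume (Metric.cthickening ((M + 1) * h) K)).toReal - ℓ) := by
      calc (A2.card : ℝ) * h ≤ (2 * (M * q) + 1) * E.card * h :=
            mul_le_mul_of_nonneg_right h2 hhpos.le
        _ = q * (2 * (M * q) + 1) * (E.card * (h / q)) := by field_simp
        _ ≤ _ := mul_le_mul_of_nonneg_left hc2 (by positivity)
    have h4 : ((A1 ∪ A2).card : ℝ) * h < N * h := by
      rw [hNh]
      have h5 : ((A1 ∪ A2).card : ℝ) * h ≤ (A1.card + A2.card) * h :=
        mul_le_mul_of_nonneg_right h1 hhpos.le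
      have h6 : T h < ℓ + η := hTN
      simp only [hT] at h6
      linarith
    have h5 := lt_of_mul_lt_mul_right h4 hhpos.le
    exact_mod_cast h5.le
  obtain ⟨y0, hy0⟩ := hne
  set j0 := ⌊y0 / (h / q)⌋ with hj0
  have hj0J : j0 ∈ J := hJ y0 hy0
  set A := A1 ∪ A2 with hA
  have hAJ : A ⊆ J := union_subset hA1J hA2J
  set e : Fin N → ℤ := fun i => if hi : (i:ℕ) < A.card then (A.equivFin.symm ⟨i, hi⟩ : ℤ) else j0
    with he
  have heJ : ∀ i, e i ∈ J := by
    intro i
    simp only [he]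
    split_ifs with hi
    · exact hAJ (A.equivFin.symm ⟨i, hi⟩).2
    · exact hj0J
  have hsurj : ∀ j ∈ A, ∃ i, e i = j := by
    intro j hj
    have hlt : (A.equivFin ⟨j, hj⟩ : ℕ) < A.card := (A.equivFin ⟨j, hj⟩).2
    refine ⟨⟨A.equivFin ⟨j, hj⟩, hlt.trans_le hcA⟩, ?_⟩
    simp only [he, hlt, dif_pos, Fin.eta, Equiv.symm_apply_apply]
  refine ⟨fun i => p (e i), fun i => (hp _ (heJ i)).1, fun y hy => ?_⟩
  exact (hpot y hy).trans (sum_le_of_surj e A hsurj (fun j => (ENNReal.ofReal |y - p j|) ^ (-s)))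

end Pool.Agent.R222.Polar
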