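import Mathlib
import Pool.Agent.R222.Polar.Hks
import Pool.Agent.R222.Polar.Upper
import Pool.Agent.R222.Polar.Lower

set_option autoImplicit false

open Finset MeasureTheory Filter Topology
open scoped ENNReal

namespace Pool.Agent.R222.Polar

/-- `2 ∑_{k < M} (k + 1/2) ^ (-s)` -/
noncomputable def psum (s : ℝ) (M : ℕ) : ℝ := ∑ k ∈ range M, 2 * ((k:ℝ) + 1 / 2) ^ (-s)

lemma cst_hasSum {s : ℝ} : HasSum (fun k : ℕ => (2:ℝ≥0∞) * (ENNReal.ofReal ((k:ℝ) + 1 / 2)) ^ (-s))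
    (cst s) := by
  have h1 : HasSum (fun k : ℕ => (ENNReal.ofReal ((k:ℝ) + 1 / 2)) ^ (-s))
      (∑' k : ℕ, (ENNReal.ofReal ((k:ℝ) + 1 / 2)) ^ (-s)) := ENNReal.summable.hasSum
  have h2 : HasSum (fun j : ℤ => (ENNReal.ofReal |(j:ℝ) + 1 / 2|) ^ (-s))
      ((∑' k : ℕ, (ENNReal.ofReal ((k:ℝ) + 1 / 2)) ^ (-s)) +
        ∑' k : ℕ, (ENNReal.ofReal ((k:ℝ) + 1 / 2)) ^ (-s)) := by
    refine HasSum.of_nat_of_neg_add_one ?_ ?_
    · convert h1 using 3 with k
      congr 1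
      rw [Int.cast_natCast, abs_of_nonneg (by positivity)]
    · convert h1 using 3 with k
      congr 1
      push_cast
      rw [show -((k:ℝ) + 1) + 1 / 2 = -((k:ℝ) + 1 / 2) by ring, abs_neg,
        abs_of_nonneg (by positivity)]
  have h3 : cst s = 2 * ∑' k : ℕ, (ENNReal.ofReal ((k:ℝ) + 1 / 2)) ^ (-s) := by
    unfold cst
    rw [h2.tsum_eq, two_mul]
  rw [h3, ← ENNReal.tsum_mul_left]
  exact ENNReal.summable.hasSum

lemma psum_eq {s : ℝ} (M : ℕ) : ENNReal.ofReal (psum s M) =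
    ∑ k ∈ range M, (2:ℝ≥0∞) * (ENNReal.ofReal ((k:ℝ) + 1 / 2)) ^ (-s) := by
  unfold psum
  rw [ENNReal.ofReal_sum_of_nonneg (fun k _ => by positivity)]
  refine Finset.sum_congr rfl fun k _ => ?_
  rw [ENNReal.ofReal_mul (by norm_num), ENNReal.ofReal_rpow_of_pos (by positivity)]
  norm_num

lemma psum_tendsto {s : ℝ} : Tendsto (fun M => ENNReal.ofReal (psum s M)) atTop (𝓝 (cst s)) := by
  simp_rw [psum_eq]
  exact (cst_hasSum (s := s)).tendsto_sum_nat

lemma cst_ne_top {s : ℝ} (hs : 1 < s) : cst s ≠ ⊤ := by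
  have h1 : Summable (fun k : ℕ => 1 / |(k:ℝ) + 1 / 2| ^ s) :=
    (Real.summable_one_div_nat_add_rpow (1 / 2) s).2 hs
  have h2 : Summable (fun k : ℕ => 2 * ((k:ℝ) + 1 / 2) ^ (-s)) := by
    refine (h1.mul_left 2).congr fun k => ?_
    rw [abs_of_nonneg (by positivity), Real.rpow_neg (by positivity), one_div]
  have h3 := h2.tsum_ofReal_ne_top
  rw [← (cst_hasSum (s := s)).tsum_eq]
  convert h3 using 3 with k
  rw [ENNReal.ofReal_mul (by norm_num), ENNReal.ofReal_rpow_of_pos (by positivity)]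
  norm_num

lemma val_tendsto {s : ℝ} (hs : 0 < s) (M : ℕ) :
    Tendsto (fun q : ℕ => val s M q) atTop (𝓝 (psum s M)) := by
  have h1 : Tendsto (fun q : ℕ => ∑ k ∈ range M, 2 * ((k:ℝ) + 1 / 2 + 1 / (q:ℝ)) ^ (-s)) atTop
      (𝓝 (psum s M)) := by
    unfold psum
    refine tendsto_finsetSum _ fun k _ => ?_
    refine Tendsto.const_mul _ ?_
    have h2 : Tendsto (fun q : ℕ => (k:ℝ) + 1 / 2 + 1 / (q:ℝ)) atTop (𝓝 ((k:ℝ) + 1 / 2)) := by
      simpa using (tendsto_const_div_atTop_nhds_zero_nat (1:ℝ)).const_add ((k:ℝ) + 1 / 2)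
    exact h2.rpow_const (Or.inl (by positivity))
  have h3 : Tendsto (fun q : ℕ => (q:ℝ) ^ s) atTop atTop :=
    (tendsto_rpow_atTop hs).comp tendsto_natCast_atTop_atTop
  refine h1.congr' ?_
  filter_upwards [h3.eventually_ge_atTop (psum s M + 1),
    h1.eventually_lt_const (show psum s M < psum s M + 1 by linarith)] with q h4 h5
  unfold val
  rw [min_eq_right]
  linarith

theorem limit {K : Set ℝ} (hK01 : K ⊆ Set.Icc (0:ℝ) 1) (hK : IsCompact K) (hne : K.Nonempty)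
    (hpos : 0 < volume K) {s : ℝ} (hs : 1 < s) :
    Tendsto (fun N : ℕ => (⨆ (x : Fin N → ℝ) (_ : ∀ i, x i ∈ K),
      ⨅ y ∈ K, ∑ j, (ENNReal.ofReal |y - x j|) ^ (-s)) / ((N : ℝ≥0∞) ^ s)) atTop
      (𝓝 ((volume K) ^ (-s) * cst s)) := by
  have hs0 : 0 < s := by linarith
  have hfin : volume K ≠ ⊤ := hK.measure_lt_top.ne
  set ℓ := (volume K).toReal with hℓ
  have hℓpos : 0 < ℓ := ENNReal.toReal_pos hpos.ne' hfin
  have hvolK : volume K = ENNReal.ofReal ℓ := (ENNReal.ofReal_toReal hfin).symm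
  rw [tendsto_order]
  constructor
  · intro a ha
    have h1 : Tendsto (fun M => (volume K) ^ (-s) * ENNReal.ofReal (psum s M)) atTop
        (𝓝 ((volume K) ^ (-s) * cst s)) := by
      refine ENNReal.Tendsto.const_mul psum_tendsto (Or.inr ?_)
      rw [hvolK, ENNReal.ofReal_rpow_of_pos hℓpos]
      exact ENNReal.ofReal_ne_top
    obtain ⟨M, hM⟩ := (h1.eventually_const_lt ha).exists
    have h2 : Tendsto (fun q : ℕ => ENNReal.ofReal ((ℓ + 1 / (q:ℝ)) ^ (-s) * val s M q)) atTop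
        (𝓝 ((volume K) ^ (-s) * ENNReal.ofReal (psum s M))) := by
      rw [hvolK, ENNReal.ofReal_rpow_of_pos hℓpos, ← ENNReal.ofReal_mul (by positivity)]
      refine (ENNReal.continuous_ofReal.tendsto _).comp ?_
      refine Tendsto.mul ?_ (val_tendsto hs0 M)
      have h2 : Tendsto (fun q : ℕ => ℓ + 1 / (q:ℝ)) atTop (𝓝 ℓ) := by
        simpa using (tendsto_const_div_atTop_nhds_zero_nat (1:ℝ)).const_add ℓ
      exact h2.rpow_const (Or.inl hℓpos.ne')
    obtain ⟨q, hq, hq0⟩ := ((h2.eventually_const_lt hM).and (eventually_gt_atTop 0)).exists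
    have hq' : (0:ℝ) < q := by exact_mod_cast hq0
    filter_upwards [lower hK01 hK hne hpos hs0 M q hq0 (η := 1 / q) (by positivity),
      eventually_gt_atTop 0] with N hN hN0
    obtain ⟨x, hxK, hx⟩ := hN
    have hN' : (0:ℝ) < N := by exact_mod_cast hN0
    refine lt_of_lt_of_le hq ?_
    have hNs : ((N:ℝ≥0∞) ^ s) ≠ 0 := by
      rw [← ENNReal.ofReal_natCast, ENNReal.ofReal_rpow_of_pos hN']
      exact (ENNReal.ofReal_pos.2 (by positivity)).ne'
    have hNs' : ((N:ℝ≥0∞) ^ s) ≠ ⊤ := by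
      rw [← ENNReal.ofReal_natCast, ENNReal.ofReal_rpow_of_pos hN']
      exact ENNReal.ofReal_ne_top
    rw [ENNReal.le_div_iff_mul_le (Or.inl hNs) (Or.inl hNs')]
    refine le_trans ?_ (le_iSup₂_of_le x hxK (le_iInf₂ hx))
    rw [← ENNReal.ofReal_natCast, ENNReal.ofReal_rpow_of_pos hN', ← ENNReal.ofReal_mul' (by positivity)]
    refine ENNReal.ofReal_le_ofReal (le_of_eq ?_)
    have hD : 0 < ℓ + 1 / (q:ℝ) := by positivity
    rw [← hℓ]
    generalize ℓ + 1 / (q:ℝ) = D at hD ⊢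
    rw [Real.div_rpow hD.le hN'.le, Real.rpow_neg hN'.le, div_inv_eq_mul]
    ring
  · intro b hb
    filter_upwards [eventually_gt_atTop 0] with N hN0
    refine lt_of_le_of_lt ?_ hb
    refine ENNReal.div_le_of_le_mul ?_
    refine iSup₂_le fun x _ => ?_
    refine (upper hs0 hK hK01 hpos N hN0 x).trans (le_of_eq ?_)
    ring

end Pool.Agent.R222.Polar
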